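import Pool.Agent.Y489.GE.Stm

/-!
# Project GE: homotopy lifting for the orbit map (S_LIFT)
-/

set_option autoImplicit false

open Set Topology unitInterval

noncomputable section

namespace Pool.Agent.Y911.GE

open Pool.Agent.Y489.GE

/-- the successive lifts -/
def lft {X G K : Type} [Group G] [MulAction G X] (v : X → G) (b : K → ℝ → X) (n : ℕ) :
    ℕ → K → ℝ → G
  | 0 => fun _ _ => 1
  | i + 1 => fun k s => lft v b n i k s *
      v ((lft v b n i k ((i : ℝ) / n))⁻¹ • b k (min (max s ((i : ℝ) / n)) (((i : ℝ) + 1) / n)))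

/-- uniform smallness of the oscillation in the second variable -/
theorem unif {X K : Type} [MetricSpace X] [MetricSpace K] [CompactSpace K] (b : K → ℝ → X)
    (hb : Continuous (fun z : K × ℝ => b z.1 z.2)) (η : ℝ) (hη : 0 < η) :
    ∃ n : ℕ, 0 < n ∧ ∀ k, ∀ s ∈ Icc (0 : ℝ) 1, ∀ t ∈ Icc (0 : ℝ) 1, |s - t| ≤ 1 / (n : ℝ) →
      dist (b k s) (b k t) < η := by
  have hc : IsCompact ((univ : Set K) ×ˢ Icc (0 : ℝ) 1) := isCompact_univ.prod isCompact_Icc
  have hu := hc.uniformContinuousOn_of_continuous hb.continuousOn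
  rw [Metric.uniformContinuousOn_iff] at hu
  obtain ⟨δ, hδ, h⟩ := hu η hη
  obtain ⟨n, hn⟩ := exists_nat_one_div_lt hδ
  refine ⟨n + 1, Nat.succ_pos n, ?_⟩
  intro k s hs t ht hst
  refine h (k, s) ⟨mem_univ _, hs⟩ (k, t) ⟨mem_univ _, ht⟩ ?_
  rw [Prod.dist_eq]
  have h1 : dist s t < δ := by
    rw [Real.dist_eq]
    push_cast at hst
    exact lt_of_le_of_lt hst hn
  simpa using max_lt hδ h1

theorem t_LIFT : S_LIFT := by
  intro X G _ _ _ _ _ _ p lam hlam hsec K _ _ b hb hb0 hb1
  obtain ⟨U, hU, v, hv, hvp, hvU⟩ := hsec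
  obtain ⟨ρ, hρ, hball⟩ := Metric.mem_nhds_iff.1 hU
  have hl1 : 0 < |lam| + 1 := by positivity
  obtain ⟨n, hn, hosc⟩ := unif b hb (ρ / (|lam| + 1)) (by positivity)
  have hnR : (0 : ℝ) < n := by exact_mod_cast hn
  have key : ∀ i : ℕ, i ≤ n →
      Continuous (fun z : K × ℝ => lft v b n i z.1 z.2) ∧
      (∀ k s, s ≤ 0 → lft v b n i k s = 1) ∧
      (∀ k s, (i : ℝ) / n ≤ s → lft v b n i k s = lft v b n i k ((i : ℝ) / n)) ∧
      (∀ k s, s ≤ (i : ℝ) / n → lft v b n i k s • p = b k s) ∧
      ∀ k, (∀ s, b k s = p) → ∀ s, lft v b n i k s = 1 := by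
    intro i
    induction i with
    | zero =>
      intro _
      refine ⟨continuous_const, fun _ _ _ => rfl, fun _ _ _ => rfl, ?_, fun _ _ _ => rfl⟩
      intro k s hs
      have : s ≤ 0 := by simpa using hs
      rw [hb0 k s this]
      exact one_smul G p
    | succ i ih =>
      intro hi
      obtain ⟨h1, h2, h3, h4, h5⟩ := ih (by omega)
      have hi0 : (0 : ℝ) ≤ (i : ℝ) / n := by positivity
      have hii : (i : ℝ) / n ≤ ((i : ℝ) + 1) / n := by
        apply div_le_div_of_nonneg_right _ hnR.le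
        linarith
      have hi1 : ((i : ℝ) + 1) / n ≤ 1 := by
        rw [div_le_one hnR]
        exact_mod_cast hi
      have hmem : ∀ s : ℝ, (i : ℝ) / n ≤ min (max s ((i : ℝ) / n)) (((i : ℝ) + 1) / n) :=
        fun s => le_min (le_max_right _ _) hii
      have hmem' : ∀ s : ℝ, min (max s ((i : ℝ) / n)) (((i : ℝ) + 1) / n) ≤ ((i : ℝ) + 1) / n :=
        fun s => min_le_right _ _
      have hself : ∀ k, (lft v b n i k ((i : ℝ) / n))⁻¹ • b k ((i : ℝ) / n) = p := by
        intro k
        rw [← h4 k _ le_rfl, inv_smul_smul]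
      have hxU : ∀ k s, (lft v b n i k ((i : ℝ) / n))⁻¹ •
          b k (min (max s ((i : ℝ) / n)) (((i : ℝ) + 1) / n)) ∈ U := by
        intro k s
        apply hball
        rw [Metric.mem_ball]
        have hd := hlam (lft v b n i k ((i : ℝ) / n))⁻¹
          (b k (min (max s ((i : ℝ) / n)) (((i : ℝ) + 1) / n))) (b k ((i : ℝ) / n))
        rw [hself k] at hd
        have ho := hosc k (min (max s ((i : ℝ) / n)) (((i : ℝ) + 1) / n))
          ⟨hi0.trans (hmem s), (hmem' s).trans hi1⟩ ((i : ℝ) / n) ⟨hi0, hii.trans hi1⟩ (by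
            rw [abs_of_nonneg (by linarith [hmem s])]
            have := hmem' s
            have e : ((i : ℝ) + 1) / n = (i : ℝ) / n + 1 / n := by ring
            linarith)
        rw [lt_div_iff₀ hl1] at ho
        have hdn : 0 ≤ dist (b k (min (max s ((i : ℝ) / n)) (((i : ℝ) + 1) / n)))
          (b k ((i : ℝ) / n)) := dist_nonneg
        have hla : lam ≤ |lam| := le_abs_self lam
        nlinarith [mul_le_mul_of_nonneg_right hla hdn]
      have hs1 : ∀ k s, s ≤ (i : ℝ) / n → v ((lft v b n i k ((i : ℝ) / n))⁻¹ •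
          b k (min (max s ((i : ℝ) / n)) (((i : ℝ) + 1) / n))) = 1 := by
        intro k s hs
        rw [max_eq_right hs, min_eq_left hii, hself k, hvp]
      refine ⟨?_, ?_, ?_, ?_, ?_⟩
      · have hc1 : Continuous (fun z : K × ℝ => lft v b n i z.1 ((i : ℝ) / n)) :=
          h1.comp (continuous_fst.prodMk continuous_const)
        have hc2 : Continuous (fun z : K × ℝ =>
            b z.1 (min (max z.2 ((i : ℝ) / n)) (((i : ℝ) + 1) / n))) :=
          hb.comp (continuous_fst.prodMk ((continuous_snd.max continuous_const).min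
            continuous_const))
        have hc3 : Continuous (fun z : K × ℝ => (lft v b n i z.1 ((i : ℝ) / n))⁻¹ •
            b z.1 (min (max z.2 ((i : ℝ) / n)) (((i : ℝ) + 1) / n))) := hc1.inv.smul hc2
        exact h1.mul (hv.comp_continuous hc3 fun z => hxU z.1 z.2)
      · intro k s hs
        show lft v b n i k s * v _ = 1
        rw [hs1 k s (hs.trans hi0), h2 k s hs, mul_one]
      · intro k s hs
        push_cast at hs ⊢
        show lft v b n i k s * v _ = lft v b n i k (((i : ℝ) + 1) / n) * v _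
        rw [h3 k s (hii.trans hs), h3 k (((i : ℝ) + 1) / n) hii,
          max_eq_left (hii.trans hs), max_eq_left hii, min_eq_right hs, min_self]
      · intro k s hs
        push_cast at hs
        show (lft v b n i k s * v _) • p = b k s
        rcases le_total s ((i : ℝ) / n) with h | h
        · rw [hs1 k s h, mul_one, h4 k s h]
        · rw [h3 k s h, mul_smul, hvU _ (hxU k s), smul_inv_smul, max_eq_left h, min_eq_left hs]
      · intro k hk s
        show lft v b n i k s * v _ = 1
        rw [h5 k hk, h5 k hk, hk, inv_one, one_smul, hvp, mul_one]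
  obtain ⟨h1, h2, h3, h4, h5⟩ := key n le_rfl
  have hnn : (n : ℝ) / n = 1 := div_self hnR.ne'
  rw [hnn] at h3 h4
  refine ⟨fun k s => lft v b n n k s, h1, h2, h3, ?_, h5⟩
  intro k s
  rcases le_total s 1 with h | h
  · exact h4 k s h
  · show lft v b n n k s • p = b k s
    rw [h3 k s h, hb1 k s h, h4 k 1 le_rfl]

end Pool.Agent.Y911.GE
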