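import Pool.Agent.Y489.GE.Stm

/-!
# Project GE: weights and families of paths from a fine cover (S_SET)
-/

set_option autoImplicit false

open Set Topology unitInterval

noncomputable section

namespace Pool.Agent.Y911.GE

open Pool.Agent.Y489.GE

/-- a bump function of an open set -/
theorem bump {K : Type} [MetricSpace K] (V : Set K) (hV : IsOpen V) :
    ∃ φ : K → ℝ, Continuous φ ∧ (∀ k, 0 ≤ φ k) ∧ ∀ k, 0 < φ k ↔ k ∈ V := by
  by_cases h : (Vᶜ).Nonempty
  · refine ⟨fun k => Metric.infDist k Vᶜ, Metric.continuous_infDist_pt _,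
      fun k => Metric.infDist_nonneg, fun k => ?_⟩
    have h1 : IsClosed Vᶜ := hV.isClosed_compl
    rw [← h1.notMem_iff_infDist_pos h, notMem_compl_iff]
  · rw [not_nonempty_iff_eq_empty, compl_empty_iff] at h
    exact ⟨fun _ => 1, continuous_const, fun _ => zero_le_one, fun k => by simp [h]⟩

/-- a family of paths obtained from one path and geodesics -/
theorem fam {X K : Type} [MetricSpace X] [MetricSpace K] (r : ℝ) (m : X → X → ℝ → X)
    (hm : GMap X r m) (p : X) (D ε : ℝ) (hD : 0 ≤ D) (hε : 0 < ε) (hεr : ε ≤ r) (f : K → X)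
    (hf : Continuous f) (V : Set K) (y : X) (c : ℝ → X) (hc : c ∈ Pa p D) (hcD : c D = y)
    (hy : ∀ k ∈ V, dist y (f k) ≤ ε) :
    ∃ R : K → ℝ → X, ContinuousOn R V ∧ (∀ k ∈ V, R k ∈ Pa p (D + ε) ∧ R k (D + ε) = f k) ∧
      (c = (fun _ => p) → ∀ k, f k = p → R k = fun _ => p) := by
  obtain ⟨c1, c2, c3⟩ := hc
  have hu : ∀ τ : ℝ, ¬ τ ≤ D → min 1 ((τ - D) / ε) ∈ Icc (0 : ℝ) 1 := by
    intro τ hτ
    refine ⟨le_min zero_le_one (div_nonneg (by linarith) hε.le), min_le_left _ _⟩
  have hend : ∀ k ∈ V, ∀ t, D + ε ≤ t →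
      (if t ≤ D then c t else m y (f k) (min 1 ((t - D) / ε))) = f k := by
    intro k hk t ht
    rw [if_neg (by linarith), min_eq_left (by rw [le_div_iff₀ hε]; linarith)]
    exact hm.one _ _ ((hy k hk).trans hεr)
  refine ⟨fun k τ => if τ ≤ D then c τ else m y (f k) (min 1 ((τ - D) / ε)), ?_, ?_, ?_⟩
  · rw [continuousOn_pi]
    intro τ
    by_cases hτ : τ ≤ D
    · simp only [if_pos hτ]
      exact continuousOn_const
    · simp only [if_neg hτ]
      have h1 : ContinuousOn (fun k : K => ((y, f k, min 1 ((τ - D) / ε)) : X × X × ℝ)) V := by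
        fun_prop
      exact hm.cont.comp h1 fun k hk => ⟨(hy k hk).trans hεr, hu τ hτ⟩
  · intro k hk
    have hle : ∀ s t : ℝ, s ≤ t →
        dist (if s ≤ D then c s else m y (f k) (min 1 ((s - D) / ε)))
          (if t ≤ D then c t else m y (f k) (min 1 ((t - D) / ε))) ≤ |s - t| := by
      intro s t hst
      have hyk := hy k hk
      by_cases hs : s ≤ D
      · by_cases ht : t ≤ D
        · rw [if_pos hs, if_pos ht]
          exact c1 s t
        · rw [if_pos hs, if_neg ht]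
          have e1 := c1 s D
          rw [hcD] at e1
          have e2 := hm.dist_left (hyk.trans hεr) (hu t ht)
          have e3 : min 1 ((t - D) / ε) * dist y (f k) ≤ t - D := by
            have e4 : min 1 ((t - D) / ε) ≤ (t - D) / ε := min_le_right _ _
            calc min 1 ((t - D) / ε) * dist y (f k) ≤ ((t - D) / ε) * ε :=
                  mul_le_mul e4 hyk dist_nonneg (div_nonneg (by linarith) hε.le)
              _ = t - D := by field_simp
          have e5 := dist_triangle (c s) y (m y (f k) (min 1 ((t - D) / ε)))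
          rw [abs_of_nonpos (by linarith)] at e1 ⊢
          linarith
      · have ht : ¬ t ≤ D := fun h => hs (hst.trans h)
        rw [if_neg hs, if_neg ht, hm.dist_eq _ _ (hyk.trans hεr) _ (hu s hs) _ (hu t ht)]
        have e1 : |min 1 ((s - D) / ε) - min 1 ((t - D) / ε)| ≤ |s - t| / ε := by
          have e2 := abs_min_sub_min_le_max 1 ((s - D) / ε) 1 ((t - D) / ε)
          rw [sub_self, abs_zero] at e2
          have e3 : (s - D) / ε - (t - D) / ε = (s - t) / ε := by ring
          rw [e3, abs_div, abs_of_pos hε] at e2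
          exact e2.trans (max_le (by positivity) le_rfl)
        calc _ ≤ |s - t| / ε * ε := mul_le_mul e1 hyk dist_nonneg (by positivity)
          _ = |s - t| := by field_simp
    refine ⟨⟨?_, ?_, ?_⟩, hend k hk _ le_rfl⟩
    · intro s t
      rcases le_total s t with h | h
      · exact hle s t h
      · rw [dist_comm, abs_sub_comm]
        exact hle t s h
    · intro t ht
      show (if t ≤ D then c t else m y (f k) (min 1 ((t - D) / ε))) = p
      rw [if_pos (ht.trans hD)]
      exact c2 t ht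
    · intro t ht
      show (if t ≤ D then c t else m y (f k) (min 1 ((t - D) / ε))) =
        (if D + ε ≤ D then c (D + ε) else m y (f k) (min 1 ((D + ε - D) / ε)))
      rw [hend k hk t ht, hend k hk (D + ε) le_rfl]
  · intro hcp k hk
    have hyp : y = p := by rw [← hcD, hcp]
    funext τ
    show (if τ ≤ D then c τ else m y (f k) (min 1 ((τ - D) / ε))) = p
    by_cases hτ : τ ≤ D
    · rw [if_pos hτ, hcp]
    · rw [if_neg hτ, hyp, hk]
      exact hm.self (hε.le.trans hεr) p (hu τ hτ)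

/-- the weight of a set of indices -/
def wt {K : Type} {n : ℕ} (φ : Fin n → K → ℝ) (S : Finset (Fin n)) (k : K) : ℝ :=
  ∏ i ∈ S, (φ i k * ∏ j ∈ Sᶜ, max 0 (φ i k - φ j k))

theorem wt_cont {K : Type} [TopologicalSpace K] {n : ℕ} (φ : Fin n → K → ℝ)
    (hφ : ∀ i, Continuous (φ i)) (S : Finset (Fin n)) : Continuous (wt φ S) := by
  unfold wt
  refine continuous_finsetProd _ fun i _ => (hφ i).mul ?_
  exact continuous_finsetProd _ fun j _ => continuous_const.max ((hφ i).sub (hφ j))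

theorem wt_nonneg {K : Type} {n : ℕ} (φ : Fin n → K → ℝ) (h0 : ∀ i k, 0 ≤ φ i k)
    (S : Finset (Fin n)) (k : K) : 0 ≤ wt φ S k :=
  Finset.prod_nonneg fun i _ => mul_nonneg (h0 i k)
    (Finset.prod_nonneg fun _ _ => le_max_left _ _)

theorem wt_pos {K : Type} {n : ℕ} (φ : Fin n → K → ℝ) (h0 : ∀ i k, 0 ≤ φ i k)
    (S : Finset (Fin n)) (k : K) :
    0 < wt φ S k ↔ ∀ i ∈ S, 0 < φ i k ∧ ∀ j, j ∉ S → φ j k < φ i k := by
  constructor
  · intro h i hi
    have h1 : φ i k * ∏ j ∈ Sᶜ, max 0 (φ i k - φ j k) ≠ 0 := by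
      intro h2
      exact h.ne' (Finset.prod_eq_zero hi h2)
    refine ⟨lt_of_le_of_ne (h0 i k) (Ne.symm (left_ne_zero_of_mul h1)), ?_⟩
    intro j hj
    by_contra h3
    push Not at h3
    apply right_ne_zero_of_mul h1
    exact Finset.prod_eq_zero (Finset.mem_compl.2 hj) (max_eq_left (by linarith))
  · intro h
    refine Finset.prod_pos fun i hi => mul_pos (h i hi).1 (Finset.prod_pos fun j hj => ?_)
    have := (h i hi).2 j (Finset.mem_compl.1 hj)
    exact lt_max_of_lt_right (by linarith)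

theorem wt_uniq {K : Type} {n : ℕ} (φ : Fin n → K → ℝ) (h0 : ∀ i k, 0 ≤ φ i k)
    (S T : Finset (Fin n)) (hST : S.card = T.card) (k : K) (hS : 0 < wt φ S k)
    (hT : 0 < wt φ T k) : S = T := by
  rw [wt_pos φ h0] at hS hT
  by_contra hne
  have h1 : ¬ S ⊆ T := fun h => hne (Finset.eq_of_subset_of_card_le h hST.ge)
  have h2 : ¬ T ⊆ S := fun h => hne (Finset.eq_of_subset_of_card_le h hST.le).symm
  rw [Finset.not_subset] at h1 h2
  obtain ⟨i, hi, hi'⟩ := h1
  obtain ⟨j, hj, hj'⟩ := h2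
  have a := (hS i hi).2 j hj'
  have b := (hT j hj).2 i hi'
  linarith

theorem t_SET : S_SET := by
  intro X K _ _ _ q hq r m hm p D hD hpath ε hε hεr f hf A hA
  classical
  have hu := CompactSpace.uniformContinuous_of_continuous hf
  rw [Metric.uniformContinuous_iff] at hu
  obtain ⟨δ, hδ, hfδ⟩ := hu ε hε
  obtain ⟨n, U, hUo, hUd, hUc, hUq⟩ := hq (δ / 2) (by positivity)
  have hfU : ∀ i, ∀ x ∈ U i, ∀ y ∈ U i, dist (f x) (f y) ≤ ε := by
    intro i x hx y hy
    exact (hfδ (lt_of_le_of_lt (hUd i x hx y hy) (by linarith))).le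
  have hbump : ∀ i, ∃ φ : K → ℝ, Continuous φ ∧ (∀ k, 0 ≤ φ k) ∧ ∀ k, 0 < φ k ↔ k ∈ U i :=
    fun i => bump (U i) (hUo i)
  choose φ hφc hφ0 hφU using hbump
  have hfam : ∀ i, ∃ R : K → ℝ → X, ContinuousOn R (U i) ∧
      (∀ k ∈ U i, R k ∈ Pa p (D + ε) ∧ R k (D + ε) = f k) ∧
      ∀ k ∈ A, k ∈ U i → R k = fun _ => p := by
    intro i
    by_cases h : ∃ k₁, k₁ ∈ U i ∧ k₁ ∈ A
    · obtain ⟨k₁, h1, h2⟩ := h
      obtain ⟨R, R1, R2, R3⟩ := fam r m hm p D ε hD hε hεr f hf (U i) p (fun _ => p)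
        ⟨fun s t => by rw [dist_self]; exact abs_nonneg _, fun _ _ => rfl, fun _ _ => rfl⟩ rfl
        (fun k hk => by rw [← hA k₁ h2]; exact hfU i k₁ h1 k hk)
      exact ⟨R, R1, R2, fun k hk _ => R3 rfl k (hA k hk)⟩
    · by_cases hne : ∃ k₁, k₁ ∈ U i
      · obtain ⟨k₁, h1⟩ := hne
        obtain ⟨c, hc, hcD⟩ := hpath (f k₁)
        obtain ⟨R, R1, R2, R3⟩ := fam r m hm p D ε hD hε hεr f hf (U i) (f k₁) c hc hcD
          (fun k hk => hfU i k₁ h1 k hk)
        exact ⟨R, R1, R2, fun k hk hk' => (h ⟨k, hk', hk⟩).elim⟩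
      · refine ⟨fun _ _ => p, continuousOn_const, fun k hk => (hne ⟨k, hk⟩).elim,
          fun _ _ _ => rfl⟩
  have hS : ∀ S : Finset (Fin n), ∃ R : K → ℝ → X, S.Nonempty →
      (ContinuousOn R {k | 0 < wt φ S k} ∧
      (∀ k, 0 < wt φ S k → R k ∈ Pa p (D + ε) ∧ R k (D + ε) = f k) ∧
      ∀ k ∈ A, 0 < wt φ S k → R k = fun _ => p) := by
    intro S
    by_cases hne : S.Nonempty
    · obtain ⟨i, hi⟩ := hne
      obtain ⟨R, R1, R2, R3⟩ := hfam i
      have hin : ∀ k, 0 < wt φ S k → k ∈ U i := by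
        intro k hk
        rw [wt_pos φ hφ0] at hk
        exact (hφU i k).1 (hk i hi).1
      exact ⟨R, fun _ => ⟨R1.mono fun k hk => hin k hk, fun k hk => R2 k (hin k hk),
        fun k hk hk' => R3 k hk (hin k hk')⟩⟩
    · exact ⟨fun _ _ => p, fun h => (hne h).elim⟩
  choose R hR using hS
  have hcardne : ∀ (S : Finset (Fin n)) (j : ℕ), S.card = j + 1 → S.Nonempty := by
    intro S j h
    rw [← Finset.card_pos]
    omega
  -- the weights and the families
  let t : ℕ → K → ℝ := fun j k => ∑ S ∈ Finset.univ.filter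
    (fun S : Finset (Fin n) => S.card = j + 1), wt φ S k
  let ρ : ℕ → K → ℝ → X := fun j k =>
    if h : ∃ S : Finset (Fin n), S.card = j + 1 ∧ 0 < wt φ S k then R h.choose k
    else fun _ => p
  have htpos : ∀ j k, 0 < t j k ↔ ∃ S : Finset (Fin n), S.card = j + 1 ∧ 0 < wt φ S k := by
    intro j k
    constructor
    · intro h
      by_contra hn
      push Not at hn
      have : t j k ≤ 0 := Finset.sum_nonpos fun S hS => hn S (Finset.mem_filter.1 hS).2
      linarith
    · rintro ⟨S, h1, h2⟩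
      exact Finset.sum_pos' (fun T _ => wt_nonneg φ hφ0 T k)
        ⟨S, Finset.mem_filter.2 ⟨Finset.mem_univ _, h1⟩, h2⟩
  have hρ : ∀ j k (S : Finset (Fin n)), S.card = j + 1 → 0 < wt φ S k → ρ j k = R S k := by
    intro j k S h1 h2
    have hex : ∃ S : Finset (Fin n), S.card = j + 1 ∧ 0 < wt φ S k := ⟨S, h1, h2⟩
    show (if h : ∃ S : Finset (Fin n), S.card = j + 1 ∧ 0 < wt φ S k then R h.choose k
      else fun _ => p) = R S k
    rw [dif_pos hex]
    have := hex.choose_spec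
    rw [wt_uniq φ hφ0 hex.choose S (this.1.trans h1.symm) k this.2 h2]
  refine ⟨t, ρ, ?_, ?_, ?_, ?_, ?_, ?_⟩
  · intro j
    exact continuous_finsetSum _ fun S _ => wt_cont φ hφc S
  · intro j k
    exact Finset.sum_nonneg fun S _ => wt_nonneg φ hφ0 S k
  · intro k
    have hcard := hUq k
    rw [Nat.card_eq_fintype_card, Fintype.card_subtype] at hcard
    obtain ⟨i, hi⟩ := hUc k
    have hpos : 0 < (Finset.univ.filter fun i : Fin n => k ∈ U i).card :=
      Finset.card_pos.2 ⟨i, Finset.mem_filter.2 ⟨Finset.mem_univ _, hi⟩⟩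
    refine ⟨(Finset.univ.filter fun i : Fin n => k ∈ U i).card - 1, by omega, ?_⟩
    rw [htpos]
    refine ⟨Finset.univ.filter fun i : Fin n => k ∈ U i, by omega, ?_⟩
    rw [wt_pos φ hφ0]
    intro i hi
    have hi' := (Finset.mem_filter.1 hi).2
    refine ⟨(hφU i k).2 hi', ?_⟩
    intro j hj
    have hj' : ¬ k ∈ U j := fun h => hj (Finset.mem_filter.2 ⟨Finset.mem_univ _, h⟩)
    have h1 : ¬ 0 < φ j k := fun h => hj' ((hφU j k).1 h)
    have h2 := (hφU i k).2 hi'
    linarith
  · intro j k hk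
    obtain ⟨S, h1, h2⟩ := (htpos j k).1 hk
    have hopen : IsOpen {k | 0 < wt φ S k} := isOpen_lt continuous_const (wt_cont φ hφc S)
    have hRc := ((hR S (hcardne S j h1)).1 k h2).continuousAt (hopen.mem_nhds h2)
    apply ContinuousAt.continuousWithinAt
    refine hRc.congr ?_
    filter_upwards [hopen.mem_nhds h2] with k' hk'
    exact (hρ j k' S h1 hk').symm
  · intro j k hk
    obtain ⟨S, h1, h2⟩ := (htpos j k).1 hk
    rw [hρ j k S h1 h2]
    exact (hR S (hcardne S j h1)).2.1 k h2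
  · intro j k hkA hk
    obtain ⟨S, h1, h2⟩ := (htpos j k).1 hk
    rw [hρ j k S h1 h2]
    exact (hR S (hcardne S j h1)).2.2 k hkA h2

end Pool.Agent.Y911.GE
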